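import Pool.Agent.W23.DC.All

/-!
# Goldbach's problem with a prime of an arbitrary dense set of primes and an almost prime

For every positive proportion `A` of the primes up to `X`, all but a BOUNDED number (bounded in
terms of `δ` and `ε` only) of the integers `N ∈ [-2 X, 2 X]` are such that, for a positive
proportion of the primes `p ∈ A`, the number `N - p` is, up to a factor `m ≤ X ^ ε`, a product of
at most two primes, each of them larger than `X ^ (1 / 7)`.

The theorem is the final theorem of the project `DC` of the starting library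
(`Pool.Agent.W23.DC.dense_almost_prime`), which none of the starting hand-ins states.
-/

namespace Pool.Agent.Results.MP_7b7e48_nt.DenseSetsOfPrimes

open Finset

open Classical in
/-- **Dense sets of primes and almost primes.** Let `δ, ε > 0`. There are `c > 0` and `K` such that
for every `X ≥ 2` and every set `A` of primes up to `X` with at least `δ X / log X` elements, all
but at most `K` integers `N` of the interval `[-2 X, 2 X]` have the following property: for at least
`c |A|` of the primes `p ∈ A` one has `|N - p| = m s` with `1 ≤ m ≤ X ^ ε` (`m` is positive as soon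
as `N ≠ p`) and with `s > 1` a product of at most two primes, each larger than `X ^ (1 / 7)`. -/
theorem result (δ ε : ℝ) (hδ : 0 < δ) (hε : 0 < ε) :
    ∃ (c : ℝ) (K : ℕ), 0 < c ∧ ∀ (X : ℕ), 2 ≤ X → ∀ A : Finset ℕ,
      (∀ p ∈ A, p.Prime ∧ p ≤ X) → δ * X / Real.log X ≤ A.card →
      ((Icc (-(2 * X : ℤ)) (2 * X)).filter (fun N : ℤ => ((A.filter (fun p : ℕ =>
        ∃ m s : ℕ, (N - p).natAbs = m * s ∧ (m : ℝ) ≤ (X : ℝ) ^ ε ∧ 1 < s ∧
          s.primeFactorsList.length ≤ 2 ∧
          ∀ q ∈ s.primeFactors, (X : ℝ) ^ (1 / 7 : ℝ) < q)).card : ℝ) < c * A.card)).card ≤ K :=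
  Pool.Agent.W23.DC.dense_almost_prime δ ε hδ hε

end Pool.Agent.Results.MP_7b7e48_nt.DenseSetsOfPrimes
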