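import Pool.Agent.V11290.FD.Sets2

/-!
# Goldbach's problem with one summand in arbitrary sets, for all even numbers near `t α + s`, for almost every `α` of a set
of positive Fourier dimension

Let `μ` be ANY probability measure on a compact subset of `(0, ∞)` whose Fourier transform decays like some power, with an
arbitrarily small exponent `σ > 0`. (Such measures live on many sets of Lebesgue measure zero and of arbitrarily small
dimension: on the badly approximable numbers with bounded partial quotients (Kaufman), on the sets of `τ`-well approximable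
numbers (Kaufman), on limit sets of convex cocompact Fuchsian groups (Bourgain, Dyatlov), on random Salem sets, ...). For every
`j` let up to `log ^ T (t j)` ARBITRARY sets `𝒬 j l` of primes (or of positive integers) up to `(a / 3) t j` be given. For almost
every `α` ALL the integers `m` near `t j α + s j` are such that for ALL `l` the number of the representations `m = p + q` with
`p ∈ 𝒬 j l` and a prime `q` (which is then larger than `p`) is determined by the distribution of the set `𝒬 j l` modulo the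
primes up to a power of `log (t j)`: it is the number of the `p ∈ 𝒬 j l` for which `m - p` has no prime factor up to
`z = log ^ E N`, divided by `log N` and by the density `∏_{p ≤ z} (1 - 1 / p)` of the integers without such prime factors.

Proof: the law of a random rounding of `t α` is approximated by a finite family of integers (with multiplicities); its
additive energy of order `p ≥ 1 / σ` is nearly minimal since the characteristic function of the rounding is small away
from the integers (a Fourier series with the coefficients `sinc²`). The moment inequality `prod_mom` of the library TH935.TF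
(starting files) for the primes, with arbitrary weights, is applied to these families, the result is carried back to the
measure, and then the lemma of Borel and Cantelli is applied.
-/

set_option autoImplicit false

namespace Pool.Agent.Results.MP_7b7e48_nt.FourierDecaySets

open Finset MeasureTheory

/-- The number of the `p ∈ P` such that `m - p` is a prime. -/
def sums (m : ℕ) (P : Finset ℕ) : ℕ := (P.filter (fun p => (m - p).Prime)).card

open Classical in
/-- The number of the `p ∈ P` such that `m - p` has no prime factor `≤ z`, divided by the density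
`∏_{p ≤ z} (1 - 1 / p)` of the integers without prime factors `≤ z`. -/
noncomputable def rough (z m : ℕ) (P : Finset ℕ) : ℝ :=
  ((P.filter (fun p => ∀ r : ℕ, r.Prime → r ≤ z → ¬ r ∣ m - p)).card : ℝ) /
    ∏ r ∈ (Icc 1 z).filter Nat.Prime, (1 - 1 / (r : ℝ))

/-- All elements of `P` are smaller than `m / 2`, and the number of the `p ∈ P` for which `m - p` is a prime agrees with
`rough z m P / log N` up to a relative error `ε` and an error `N / log ^ U N`. -/
def Holds (ε : ℝ) (U z N : ℕ) (P : Finset ℕ) (m : ℕ) : Prop :=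
  (∀ p ∈ P, 2 * p < m) ∧
  |(sums m P : ℝ) * Real.log N - rough z m P| ≤ ε * rough z m P + N / Real.log N ^ U

open Pool.Agent.TH935.TF Pool.Agent.V11290.FD.AS in
lemma holds_of (ε : ℝ) (U z N : ℕ) {Ln : ℕ} (𝒜 : Fin Ln → Finset ℕ) (m : ℕ)
    (h : HS ε 0 U z N 𝒜 (fun _ : Fin 1 => (m : ℤ))) (l : Fin Ln) (hP : ∀ p ∈ 𝒜 l, 2 * p < m) : Holds ε U z N (𝒜 l) m := by
  refine ⟨hP, ?_⟩
  have h1 := h (fun _ => -1) (fun _ => by norm_num) (fun _ => by simp) l
  have e1 : cS (fun _ : Fin 1 => (-1 : ℤ)) (fun _ => (m : ℤ)) (𝒜 l) = sums m (𝒜 l) := by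
    unfold cS sums
    congr 1
    apply filter_congr
    intro p hp
    have h2 := hP p hp
    have h3 : ((-1 : ℤ) * (p : ℤ) + m).natAbs = m - p := by omega
    simp only [h3]
    exact ⟨fun h => h 0, fun h _ => h⟩
  have e2 : MS z (fun _ : Fin 1 => (-1 : ℤ)) (fun _ => (m : ℤ)) (𝒜 l) = rough z m (𝒜 l) := by
    unfold MS rough
    rw [card_filter, Nat.cast_sum, sum_div]
    apply sum_congr rfl
    intro p hp
    have h2 := hP p hp
    have h3 : ((-1 : ℤ) * (p : ℤ) + m) = ((m - p : ℕ) : ℤ) := by omega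
    rw [Fintype.prod_eq_single (0 : Fin 1) (fun i hi => absurd (Subsingleton.elim i 0) hi), h3]
    unfold mdl
    have hiff : (∀ r ∈ Pool.Agent.H373R2.T7.pz z, ¬ (r : ℤ) ∣ ((m - p : ℕ) : ℤ)) ↔ (∀ r : ℕ, r.Prime → r ≤ z → ¬ r ∣ m - p) := by
      unfold Pool.Agent.H373R2.T7.pz
      constructor
      · intro h4 r hr hrz hd
        exact h4 r (mem_filter.2 ⟨mem_Icc.2 ⟨hr.one_le, hrz⟩, hr⟩) (by exact_mod_cast hd)
      · intro h4 r hr hd
        rw [mem_filter, mem_Icc] at hr
        exact h4 r hr.2 hr.1.2 (by exact_mod_cast hd)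
    by_cases h5 : ∀ r : ℕ, r.Prime → r ≤ z → ¬ r ∣ m - p
    · rw [if_pos (hiff.2 h5), if_pos h5, Nat.cast_one, one_div]
      rfl
    · rw [if_neg (fun h6 => h5 (hiff.1 h6)), if_neg h5, Nat.cast_zero, zero_div]
  rw [e1, e2, pow_one] at h1
  exact h1

/-- Let `μ` be a probability measure on an interval `[a, B]`, `a > 0`, with `|μ^(ξ)| ≤ C |ξ| ^ (-σ)` for `|ξ| ≥ 1` and
some `C` and `σ > 0`. Let `t j ≥ 2` and `0 ≤ s j ≤ B t j` be real numbers, where `j` ranges over a set `J`, such that the
sum of the `1 / log ^ V (t j)` converges for some `V`, and let `N = ⌈t j⌉`. For every `j` let at most `log ^ T (t j)`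
arbitrary sets `𝒬 j l` of positive integers (for instance of primes) up to `(a / 3) t j` be given. Then for `μ`-almost every `α`
and for all `A` and `U` there is an `E₀` such that for all `E ≥ E₀`, all `ε > 0` and all but finitely many `j`: ALL the integers
`m` with `|m - (t j α + s j)| ≤ log ^ A (t j)` are such that for ALL `l`, with `z = ⌈log ^ E N⌉`, the elements of `𝒬 j l` are
smaller than `m / 2` and the number of the `p ∈ 𝒬 j l` for which `m - p` is a prime, multiplied by `log N`, differs from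
`rough z m (𝒬 j l)` by at most `ε rough z m (𝒬 j l) + N / log ^ U N`. -/
theorem result (μ : Measure ℝ) [IsProbabilityMeasure μ] (a B : ℝ) (ha : 0 < a) (hμ : ∀ᵐ α ∂μ, a ≤ α ∧ α ≤ B)
    (C σ : ℝ) (hσ : 0 < σ) (hdec : ∀ ξ : ℝ, 1 ≤ |ξ| → ‖charFun μ ξ‖ ≤ C * |ξ| ^ (-σ))
    (J : Type) (t s : J → ℝ) (ht : ∀ j, 2 ≤ t j) (hs : ∀ j, 0 ≤ s j ∧ s j ≤ B * t j)
    (hsum : ∃ V : ℕ, Summable fun j => 1 / Real.log (t j) ^ V)
    (T : ℕ) (L : J → ℕ) (hL : ∀ j, (L j : ℝ) ≤ Real.log (t j) ^ T) (𝒬 : (j : J) → Fin (L j) → Finset ℕ)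
    (h𝒬 : ∀ j l, ∀ p ∈ 𝒬 j l, 1 ≤ p ∧ (p : ℝ) ≤ a / 3 * t j) :
    ∀ᵐ α ∂μ, ∀ A U : ℕ, ∃ E₀ : ℕ, ∀ E : ℕ, E₀ ≤ E → ∀ ε : ℝ, 0 < ε →
      {j | ¬ ∀ m : ℕ, |(m : ℝ) - (t j * α + s j)| ≤ Real.log (t j) ^ A →
        ∀ l, Holds ε U ⌈Real.log ⌈t j⌉₊ ^ E⌉₊ ⌈t j⌉₊ (𝒬 j l) m}.Finite := by
  classical
  have hne : a ≤ B := by
    obtain ⟨α, hα⟩ := hμ.exists
    linarith [hα.1, hα.2]
  have hB0 : 0 < B := by linarith
  obtain ⟨G, hG⟩ := exists_nat_ge a
  have hμ' : ∀ᵐ α ∂μ, |α| ≤ B := by
    filter_upwards [hμ] with α hα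
    rw [abs_of_nonneg (by linarith [hα.1])]
    exact hα.2
  have hsub : ∀ j l, 𝒬 j l ⊆ Icc 1 (G * ⌈t j⌉₊) := by
    intro j l p hp
    obtain ⟨h1, h2⟩ := h𝒬 j l p hp
    rw [mem_Icc]
    refine ⟨h1, ?_⟩
    have h3 : (p : ℝ) ≤ ((G * ⌈t j⌉₊ : ℕ) : ℝ) := by
      push_cast
      have h4 := Nat.le_ceil (t j)
      have h5 : 0 < t j := by linarith [ht j]
      have h6 : (0 : ℝ) ≤ G := Nat.cast_nonneg _
      calc (p : ℝ) ≤ a / 3 * t j := h2
        _ ≤ a * t j := by nlinarith
        _ ≤ G * ⌈t j⌉₊ := mul_le_mul hG h4 h5.le h6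
    exact_mod_cast h3
  have h := Pool.Agent.V11290.FD.AS.sets_ae le_rfl (fun _ : Fin 1 => μ) B (fun _ => hμ') C σ hσ (fun _ => hdec) J t
    (fun j _ => s j) ht (fun j _ => by rw [abs_of_nonneg (hs j).1]; exact (hs j).2) hsum G T L hL 𝒬 hsub
  have hmp := (measurePreserving_funUnique μ (Fin 1)).symm
  have h' := hmp.quasiMeasurePreserving.ae h
  obtain ⟨V, hV⟩ := hsum
  filter_upwards [h', hμ] with α hα hαa A U
  obtain ⟨E₀, hE₀⟩ := hα A 0 U
  refine ⟨E₀, fun E hE ε hε => ?_⟩
  obtain ⟨t₁, ht₁⟩ := Pool.Agent.V11290.FD.log_pow_le A (a / 6) (by positivity)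
  have hsmall := Pool.Agent.V11290.FD.small_fin t ht V hV t₁
  refine ((hE₀ E hE ε hε).union hsmall).subset ?_
  intro j hj
  rw [Set.mem_ofPred_eq] at hj
  by_cases h3 : t j < t₁
  · right
    exact h3
  left
  rw [Set.mem_ofPred_eq]
  intro hall
  apply hj
  intro m hm l
  have htj := ht j
  have hlp := ht₁ (t j) (not_lt.1 h3)
  refine holds_of ε U _ _ (𝒬 j) m (hall (fun _ => (m : ℤ)) (fun _ => by exact_mod_cast hm)) l ?_
  intro p hp
  obtain ⟨_, h5⟩ := h𝒬 j l p hp
  have h6 := (abs_le.1 hm).1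
  have h7 : a * t j ≤ t j * α := by
    rw [mul_comm]
    exact mul_le_mul_of_nonneg_left hαa.1 (by linarith)
  have h8 : 0 < a * t j := by positivity
  have h9 : (2 * p : ℝ) < m := by linarith [(hs j).1]
  exact_mod_cast h9

end Pool.Agent.Results.MP_7b7e48_nt.FourierDecaySets
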