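import Pool.Agent.Y816.PD.UniS

/-!
# Goldbach representations with a summand with restricted digits

Let `b ≥ 2` be a base and let the digits of a number `n < b^K` be restricted: the `i`-th digit belongs
to a set `A i`, where the sets `A i` are arbitrary, depend on the place `i < K`, and have the only
property that the number `∏ |A i|` of these integers `n` is at least `e^{-δK} b^K`, where the constant
`δ > 0` does not depend on `b`.  (For example one digit may be excluded at every place if `b` is large;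
or a positive proportion of the digits may be fixed.)  Let `N` be an even number between `b^K` and an
arbitrary fixed power of `b^K`.  The heuristic of Hardy and Littlewood predicts that the number of these
`n` with `n` and `N - n` prime has the order of magnitude `S(N) ∏ |A i| / K²`, where `S(N)` is the product
of `(p - 1) / (p - 2)` over the odd primes `p` dividing `N` (if the last digit can be chosen such that
`n` and `N - n` are prime to `b`).  For `N ≤ b^{K+1}` these are representations with two summands of the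
size of `N`; for larger `N` one of them is small.

We show that this is an upper bound for the number of the representations `N = n + (N - n)` by two
primes, and a lower bound for the number of the representations by two numbers with at most `r` prime
factors, all of them larger than `b^{K/r}`, uniformly in `N` and in the sets of digits.

The method is a Brun–Hooley sieve with weights, whose level of distribution is obtained from the Fourier
transform of the set of the integers with restricted digits at rationals (large sieve in blocks of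
digits), see `Pool/Agent/Y816/PD`.  Here we compute the local densities of the polynomial `X (N - X)`.
-/

set_option autoImplicit false

namespace Pool.Agent.Results.MP_7b7e48_nt.RestrictedDigits

open Finset Filter

open Classical in
/-- The number of the `n < b ^ K` in `T` whose `i`-th digit in base `b` belongs to `A i` for all
`i < K`. -/
noncomputable def count (b K : ℕ) (A : ℕ → Finset ℕ) (T : Set ℕ) : ℕ :=
  ((range (b ^ K)).filter (fun n => (∀ i < K, n / b ^ i % b ∈ A i) ∧ n ∈ T)).card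

/-- The number of choices of the digits. -/
noncomputable def choices (K : ℕ) (A : ℕ → Finset ℕ) : ℝ := ∏ i ∈ range K, ((A i).card : ℝ)

/-- `m` has at most `r` prime factors, counted with multiplicity, and all of them are larger than
`z ^ (1 / r)`. -/
def AlmostPrime (r z m : ℕ) : Prop :=
  (∀ p : ℕ, p.Prime → p ∣ m → z < p ^ r) ∧ m.primeFactorsList.length ≤ r

/-- The product of `(p - 1) / (p - 2)` over the odd prime factors `p` of `N`. -/
noncomputable def S (N : ℕ) : ℝ :=
  ∏ p ∈ N.primeFactors.filter (fun p => 2 < p), ((p : ℝ) - 1) / ((p : ℝ) - 2)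

/-- the polynomial `n (N - n)` -/
def G (N n : ℕ) : ℤ := (n : ℤ) * ((N : ℤ) - n)

open Pool.Agent.Y816.PD (WG TP TP_dvd WG_bounds WG_nonneg uni_top NA ND)

lemma G_dvd {N n p : ℕ} (hp : p.Prime) : (p : ℤ) ∣ G N n ↔ p ∣ n ∨ (p : ℤ) ∣ (N : ℤ) - n := by
  unfold G
  rw [(Nat.prime_iff_prime_int.1 hp).dvd_mul]
  exact or_congr_left Int.natCast_dvd_natCast

open Classical in
lemma card_G (N : ℕ) {p : ℕ} (hp : p.Prime) :
    ((range p).filter (fun n : ℕ => (p : ℤ) ∣ G N n)).card = if p ∣ N then 1 else 2 := by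
  have hp0 : 0 < p := hp.pos
  have h1 : (range p).filter (fun n : ℕ => (p : ℤ) ∣ G N n) = {0, N % p} := by
    ext n
    simp only [mem_filter, mem_range, mem_insert, mem_singleton]
    rw [G_dvd hp]
    constructor
    · rintro ⟨hn, h | h⟩
      · left
        exact Nat.eq_zero_of_dvd_of_lt h hn
      · right
        have h2 : (n : ℤ) ≡ N [ZMOD p] := Int.modEq_iff_dvd.2 h
        have h3 : n ≡ N [MOD p] := Int.natCast_modEq_iff.1 h2
        rw [← Nat.mod_eq_of_lt hn]
        exact h3
    · rintro (rfl | rfl)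
      · exact ⟨hp0, Or.inl (dvd_zero _)⟩
      · refine ⟨Nat.mod_lt _ hp0, Or.inr ?_⟩
        have h3 : (N % p : ℕ) ≡ N [MOD p] := Nat.mod_modEq _ _
        exact (Int.natCast_modEq_iff.2 h3).dvd
  rw [h1]
  split_ifs with h
  · rw [Nat.mod_eq_zero_of_dvd h]
    rfl
  · rw [card_pair]
    intro h2
    exact h (Nat.dvd_of_mod_eq_zero h2.symm)

open Classical in
lemma card_T {p : ℕ} (hp : p.Prime) :
    ((range p).filter (fun n : ℕ => (p : ℤ) ∣ TP {0, 2} 0 n)).card = if p = 2 then 1 else 2 := by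
  have hp0 : 0 < p := hp.pos
  have hp2 := hp.two_le
  have h1 : (range p).filter (fun n : ℕ => (p : ℤ) ∣ TP {0, 2} 0 n) = {0, p - 2} := by
    ext n
    simp only [mem_filter, mem_range, mem_insert, mem_singleton]
    rw [TP_dvd _ _ _ hp]
    constructor
    · rintro ⟨hn, h, hh, hd⟩
      simp only [mem_insert, mem_singleton] at hh
      rcases hh with rfl | rfl
      · left
        exact Nat.eq_zero_of_dvd_of_lt (by simpa using hd) hn
      · obtain ⟨c, hc⟩ := hd
        have hc1 : c = 1 ∨ 2 ≤ c := by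
          rcases Nat.eq_zero_or_pos c with rfl | h
          · omega
          · omega
        rcases hc1 with rfl | hc1
        · right
          omega
        · left
          have : p * 2 ≤ p * c := Nat.mul_le_mul_left _ hc1
          omega
    · rintro (rfl | rfl)
      · exact ⟨hp0, 0, by simp, by simp⟩
      · refine ⟨by omega, 2, by simp, ?_⟩
        have : 0 + (p - 2) + 2 = p := by omega
        rw [this]
  rw [h1]
  split_ifs with h
  · subst h
    rfl
  · rw [card_pair]
    omega

/-- the local factors -/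
lemma factor {N : ℕ} (hN : Even N) {p : ℕ} (hp : p.Prime) :
    (1 - ((if p ∣ N then 1 else 2 : ℕ) : ℝ) / p) = (1 - ((if p = 2 then 1 else 2 : ℕ) : ℝ) / p) *
      (if 2 < p ∧ p ∣ N then ((p : ℝ) - 1) / ((p : ℝ) - 2) else 1) := by
  have hp0 : (0 : ℝ) < p := by exact_mod_cast hp.pos
  by_cases h2 : p = 2
  · subst h2
    rw [if_pos (even_iff_two_dvd.1 hN), if_pos rfl, if_neg (by omega), mul_one]
  · have hp2 : 2 < p := lt_of_le_of_ne hp.two_le (Ne.symm h2)
    have hp2' : (0 : ℝ) < (p : ℝ) - 2 := by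
      have : (2 : ℝ) < p := by exact_mod_cast hp2
      linarith
    rw [if_neg h2]
    by_cases hd : p ∣ N
    · rw [if_pos hd, if_pos ⟨hp2, hd⟩]
      push_cast
      field_simp
    · rw [if_neg hd, if_neg (fun h => hd h.2), mul_one]

/-- the part of `S` with primes up to `x` -/
noncomputable def Sx (N x : ℕ) : ℝ :=
  ∏ p ∈ ((Icc 1 x).filter Nat.Prime).filter (fun p => 2 < p ∧ p ∣ N), ((p : ℝ) - 1) / ((p : ℝ) - 2)

lemma WG_eq {N : ℕ} (hN : Even N) (x : ℕ) : WG (G N) x = WG (TP {0, 2} 0) x * Sx N x := by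
  classical
  unfold WG Sx
  rw [prod_filter (fun p => 2 < p ∧ p ∣ N), ← prod_mul_distrib]
  refine prod_congr rfl fun p hp => ?_
  have hpp : p.Prime := (mem_filter.1 hp).2
  have e1 := card_G N hpp
  have e2 := card_T hpp
  have e3 := factor hN hpp
  rw [← e1, ← e2] at e3
  convert e3 using 5

lemma fac_one {p : ℕ} (hp : 2 < p) : (1 : ℝ) ≤ ((p : ℝ) - 1) / ((p : ℝ) - 2) ∧
    ((p : ℝ) - 1) / ((p : ℝ) - 2) ≤ 2 := by
  have h3 : (3 : ℝ) ≤ p := by exact_mod_cast hp
  have h2 : (0 : ℝ) < (p : ℝ) - 2 := by linarith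
  constructor
  · rw [le_div_iff₀ h2]
    linarith
  · rw [div_le_iff₀ h2]
    linarith

lemma S_bounds {b K D N : ℕ} (hb : 2 ≤ b) (hK : 1 ≤ K) (hN0 : 0 < N) (hN : N ≤ b ^ (D * K)) :
    Sx N (b ^ K) ≤ S N ∧ S N ≤ 2 ^ D * Sx N (b ^ K) := by
  classical
  obtain ⟨T, hT⟩ : ∃ T, T = N.primeFactors.filter (fun p => 2 < p) := ⟨_, rfl⟩
  obtain ⟨U, hU⟩ : ∃ U, U = ((Icc 1 (b ^ K)).filter Nat.Prime).filter (fun p => 2 < p ∧ p ∣ N) :=
    ⟨_, rfl⟩
  have hUT : U ⊆ T := by
    intro p hp
    rw [hU, mem_filter, mem_filter] at hp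
    rw [hT, mem_filter, Nat.mem_primeFactors]
    exact ⟨⟨hp.1.2, hp.2.2, by omega⟩, hp.2.1⟩
  have hS : S N = (∏ p ∈ T \ U, ((p : ℝ) - 1) / ((p : ℝ) - 2)) * Sx N (b ^ K) := by
    unfold S Sx
    rw [← hT, ← hU, prod_sdiff hUT]
  have hSx0 : 0 ≤ Sx N (b ^ K) := by
    unfold Sx
    rw [← hU]
    refine prod_nonneg fun p hp => ?_
    have h2 : 2 < p := by
      have := hUT hp
      rw [hT, mem_filter] at this
      exact this.2
    exact zero_le_one.trans (fac_one h2).1
  have h2T : ∀ p ∈ T \ U, 2 < p := by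
    intro p hp
    have := (mem_sdiff.1 hp).1
    rw [hT, mem_filter] at this
    exact this.2
  have hcard : (T \ U).card ≤ D := by
    have h1 : ∀ p ∈ T \ U, b ^ K ≤ p := by
      intro p hp
      obtain ⟨h1, h2⟩ := mem_sdiff.1 hp
      rw [hT, mem_filter, Nat.mem_primeFactors] at h1
      by_contra hlt
      apply h2
      rw [hU, mem_filter, mem_filter, mem_Icc]
      exact ⟨⟨⟨h1.1.1.one_lt.le, by omega⟩, h1.1.1⟩, h1.2, h1.1.2.1⟩
    have h3 : (b ^ K) ^ (T \ U).card ≤ ∏ p ∈ T \ U, p := by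
      rw [← prod_const]
      exact prod_le_prod' h1
    have h4 : ∏ p ∈ T \ U, p ≤ N := by
      refine Nat.le_of_dvd hN0 ?_
      refine (prod_dvd_prod_of_subset (T \ U) N.primeFactors (fun p => p) ?_).trans
        (Nat.prod_primeFactors_dvd N)
      intro p hp
      have := (mem_sdiff.1 hp).1
      rw [hT, mem_filter] at this
      exact this.1
    have h5 : b ^ (K * (T \ U).card) ≤ b ^ (D * K) := by
      rw [pow_mul]
      exact (h3.trans h4).trans hN
    have h6 := (Nat.pow_le_pow_iff_right (by omega : 1 < b)).1 h5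
    rw [mul_comm D K] at h6
    exact Nat.le_of_mul_le_mul_left h6 (by omega)
  constructor
  · rw [hS]
    have h1 : (1 : ℝ) ≤ ∏ p ∈ T \ U, ((p : ℝ) - 1) / ((p : ℝ) - 2) := by
      refine Finset.prod_induction _ (fun y => (1 : ℝ) ≤ y) (fun a b ha hb => ?_) le_rfl
        (fun p hp => (fac_one (h2T p hp)).1)
      nlinarith
    nlinarith
  · rw [hS]
    refine mul_le_mul_of_nonneg_right ?_ hSx0
    calc ∏ p ∈ T \ U, ((p : ℝ) - 1) / ((p : ℝ) - 2) ≤ ∏ p ∈ T \ U, (2 : ℝ) :=
          Finset.prod_le_prod (fun p hp => zero_le_one.trans (fac_one (h2T p hp)).1)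
            (fun p hp => (fac_one (h2T p hp)).2)
      _ = 2 ^ (T \ U).card := by rw [prod_const]
      _ ≤ 2 ^ D := pow_le_pow_right₀ (by norm_num) hcard

lemma not_dvd {N : ℕ} (hN : Even N) (p : ℕ) (hp : p.Prime) : ∃ n : ℕ, ¬ (p : ℤ) ∣ G N n := by
  by_cases h1 : (p : ℤ) ∣ (N : ℤ) - 1
  · have hp2 : p ≠ 2 := by
      rintro rfl
      obtain ⟨c, hc⟩ := hN
      omega
    refine ⟨2, fun h => ?_⟩
    rw [G_dvd hp] at h
    rcases h with h | h
    · exact hp2 ((Nat.prime_dvd_prime_iff_eq hp Nat.prime_two).1 h)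
    · have h3 := dvd_sub h1 h
      have e : ((N : ℤ) - 1) - ((N : ℤ) - ((2 : ℕ) : ℤ)) = 1 := by push_cast; ring
      rw [e] at h3
      have : p ∣ 1 := by exact_mod_cast h3
      exact hp.one_lt.ne' (Nat.dvd_one.1 this)
  · refine ⟨1, fun h => ?_⟩
    rw [G_dvd hp] at h
    rcases h with h | h
    · exact hp.one_lt.ne' (Nat.dvd_one.1 h)
    · exact h1 (by exact_mod_cast h)

/-- **Goldbach representations with a summand with restricted digits.** -/
theorem result (D : ℕ) :
    ∃ δ : ℝ, 0 < δ ∧ ∃ r₀ : ℕ, 2 ≤ r₀ ∧ ∀ r : ℕ, r₀ ≤ r → ∀ b : ℕ, 2 ≤ b →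
      ∃ κ C : ℝ, 0 < κ ∧ 0 < C ∧
      ∀ᶠ K : ℕ in atTop, ∀ N : ℕ, Even N → b ^ K ≤ N → N ≤ b ^ (D * K) →
        ∀ A : ℕ → Finset ℕ, (∀ i < K, A i ⊆ range b) →
        (b : ℝ) ^ K ≤ Real.exp (δ * K) * choices K A →
        ((∃ d ∈ A 0, d.Coprime b ∧ (N - d).Coprime b) → (∃ d ∈ A (K - 1), d ≠ 0) →
          κ * choices K A * S N / (K : ℝ) ^ 2 ≤ count b K A {n | b ^ (K - 1) ≤ n ∧
            AlmostPrime r (b ^ K) n ∧ AlmostPrime r (b ^ K) (N - n)}) ∧
        (count b K A {n | n.Prime ∧ (N - n).Prime ∧ n < (N - n) ^ 2} : ℝ) ≤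
          C * choices K A * S N / (K : ℝ) ^ 2 := by
  classical
  obtain ⟨δ, hδ, r₀, hr₀, h⟩ := uni_top 2 (D + 1) (by norm_num)
  refine ⟨δ, hδ, r₀, hr₀, fun r hr b hb => ?_⟩
  obtain ⟨κ, C, hκ, hC, h1⟩ := h r hr b hb
  obtain ⟨v, Cv, hv, hCv, hW⟩ := WG_bounds {0, 2} (by
    intro p hp
    by_cases hp2 : p = 3
    · refine ⟨2, fun h hh => ?_⟩
      simp only [mem_insert, mem_singleton] at hh
      rcases hh with rfl | rfl <;> subst hp2 <;> norm_num
    · refine ⟨1, fun h hh => ?_⟩
      simp only [mem_insert, mem_singleton] at hh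
      rcases hh with rfl | rfl
      · simpa using hp.one_lt.ne'
      · intro hd
        exact hp2 ((Nat.prime_dvd_prime_iff_eq hp Nat.prime_three).1 (by simpa using hd))) 2
    (by decide) b hb
  refine ⟨κ * v / 2 ^ D, C * Cv, by positivity, by positivity, ?_⟩
  filter_upwards [h1, hW, eventually_ge_atTop 2] with K hK hWK hK2 N hN hbN hNb A hA hprod
  have hbK : 0 < b ^ K := by positivity
  have hN0 : 0 < N := by omega
  have hpoly : ∃ P : Polynomial ℤ, P.natDegree ≤ 2 ∧ ∀ n : ℕ, P.eval (n : ℤ) = G N n := by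
    refine ⟨Polynomial.X * (Polynomial.C (N : ℤ) - Polynomial.X), ?_, fun n => ?_⟩
    · refine Polynomial.natDegree_mul_le.trans ?_
      have e1 : (Polynomial.X : Polynomial ℤ).natDegree ≤ 1 := Polynomial.natDegree_X_le
      have e2 : (Polynomial.C (N : ℤ) - Polynomial.X : Polynomial ℤ).natDegree ≤ 1 := by
        refine (Polynomial.natDegree_sub_le _ _).trans ?_
        rw [Polynomial.natDegree_C]
        exact max_le (by omega) e1
      omega
    · simp [G]
  have hsub : ∀ n : ℕ, n < b ^ K → (G N n).natAbs = n * (N - n) := by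
    intro n hn
    have e : G N n = ((n * (N - n) : ℕ) : ℤ) := by
      unfold G
      rw [Nat.cast_mul, Nat.cast_sub (by omega)]
    rw [e, Int.natAbs_natCast]
  have hsize : ∀ n : ℕ, n < b ^ K → (G N n).natAbs ≤ b ^ ((D + 1) * K) := by
    intro n hn
    rw [hsub n hn]
    have e : b ^ ((D + 1) * K) = b ^ K * b ^ (D * K) := by
      rw [← pow_add]
      congr 1
      ring
    rw [e]
    exact Nat.mul_le_mul hn.le ((Nat.sub_le _ _).trans hNb)
  obtain ⟨h2, h3⟩ := hK (G N) hpoly (not_dvd hN) hsize A hA hprod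
  have hNA : 0 ≤ choices K A := by
    unfold choices
    exact prod_nonneg fun i _ => Nat.cast_nonneg _
  obtain ⟨hS1, hS2⟩ := S_bounds hb (by omega) hN0 hNb
  obtain ⟨hW1, hW2⟩ := hWK 0
  have hSx0 : 0 ≤ Sx N (b ^ K) := by
    have hD : (0 : ℝ) < 2 ^ D := by positivity
    by_contra hneg
    push Not at hneg
    have h5 : S N < 0 := lt_of_le_of_lt hS2 (mul_neg_of_pos_of_neg hD hneg)
    have h6 : 0 ≤ S N := by
      unfold S
      refine prod_nonneg fun p hp => ?_
      exact zero_le_one.trans (fac_one (mem_filter.1 hp).2).1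
    linarith
  have hKpos : (0 : ℝ) < (K : ℝ) ^ 2 := by
    have : (0 : ℝ) < K := by exact_mod_cast (by omega : 0 < K)
    positivity
  have hWG := WG_eq hN (b ^ K)
  constructor
  · rintro ⟨d, hd, hcop1, hcop2⟩ htop
    have hdb : d < b ^ K := by
      have h5 : d < b := mem_range.1 (hA 0 (by omega) hd)
      exact lt_of_lt_of_le h5 (Nat.le_self_pow (by omega) b)
    have h6 := h2 ⟨d, hd, by rw [hsub d hdb]; exact Nat.Coprime.mul_left hcop1 hcop2⟩ htop
    refine le_trans ?_ (h6.trans (Nat.cast_le.2 ?_))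
    · change _ ≤ κ * choices K A * WG (G N) (b ^ K)
      rw [hWG]
      have h7 : v / (K : ℝ) ^ 2 * (S N / 2 ^ D) ≤ WG (TP {0, 2} 0) (b ^ K) * Sx N (b ^ K) := by
        refine mul_le_mul hW1 ?_ ?_ ((by positivity : (0 : ℝ) ≤ v / (K : ℝ) ^ 2).trans hW1)
        · rw [div_le_iff₀ (by positivity)]
          linarith
        · exact div_nonneg (hSx0.trans hS1) (by positivity)
      calc κ * v / 2 ^ D * choices K A * S N / (K : ℝ) ^ 2
          = κ * choices K A * (v / (K : ℝ) ^ 2 * (S N / 2 ^ D)) := by ring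
        _ ≤ _ := mul_le_mul_of_nonneg_left h7 (mul_nonneg hκ.le hNA)
    · unfold count ND
      refine card_le_card fun n hn => ?_
      simp only [mem_filter, Set.mem_ofPred_eq] at hn ⊢
      obtain ⟨hn0, hn1, hn2, hn3, hn4⟩ := hn
      have hnK := mem_range.1 hn0
      rw [hsub n hnK] at hn4
      have hn00 : n ≠ 0 := by
        have : 0 < b ^ (K - 1) := by positivity
        omega
      have hn01 : N - n ≠ 0 := by omega
      have hlen := (Nat.perm_primeFactorsList_mul hn00 hn01).length_eq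
      rw [List.length_append] at hlen
      refine ⟨hn0, hn1, hn2, ⟨fun p hp hpd => hn3 p hp ?_, by omega⟩,
        ⟨fun p hp hpd => hn3 p hp ?_, by omega⟩⟩
      · rw [← Int.dvd_natAbs, hsub n hnK]
        exact_mod_cast hpd.mul_right _
      · rw [← Int.dvd_natAbs, hsub n hnK]
        exact_mod_cast hpd.mul_left _
  · have h4 : (count b K A {n | n.Prime ∧ (N - n).Prime ∧ n < (N - n) ^ 2} : ℝ) ≤
        ND b K A (Pool.Agent.Y816.PD.Rgh (G N) r) := by
      unfold count ND
      refine Nat.cast_le.2 (card_le_card fun n hn => ?_)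
      simp only [mem_filter, Set.mem_ofPred_eq] at hn ⊢
      obtain ⟨hn0, hn1, hn2, hn3, hn4⟩ := hn
      refine ⟨hn0, hn1, fun p hp hpd => ?_⟩
      rw [← Int.dvd_natAbs, hsub n (mem_range.1 hn0)] at hpd
      have hpd' : p ∣ n * (N - n) := by exact_mod_cast hpd
      rcases (Nat.Prime.dvd_mul hp).1 hpd' with h5 | h5
      · rw [(Nat.prime_dvd_prime_iff_eq hp hn2).1 h5]
        exact lt_self_pow₀ hn2.one_lt (by omega)
      · rw [(Nat.prime_dvd_prime_iff_eq hp hn3).1 h5]
        exact lt_of_lt_of_le hn4 (Nat.pow_le_pow_right hn3.pos (by omega))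
    refine h4.trans (h3.trans ?_)
    change C * choices K A * WG (G N) (b ^ K) ≤ _
    rw [hWG]
    have h7 : WG (TP {0, 2} 0) (b ^ K) * Sx N (b ^ K) ≤ Cv / (K : ℝ) ^ 2 * S N :=
      mul_le_mul hW2 hS1 hSx0 (by positivity)
    calc C * choices K A * (WG (TP {0, 2} 0) (b ^ K) * Sx N (b ^ K))
        ≤ C * choices K A * (Cv / (K : ℝ) ^ 2 * S N) :=
          mul_le_mul_of_nonneg_left h7 (mul_nonneg hC.le hNA)
      _ = C * Cv * choices K A * S N / (K : ℝ) ^ 2 := by ring

end Pool.Agent.Results.MP_7b7e48_nt.RestrictedDigits
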