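import Pool.Agent.W23.SG.All

/-!
# Goldbach's problem with a prime of an arbitrary sparse set of primes and an almost prime

For some `η > 0`, EVERY set `A` of primes up to `X` with at least `X ^ (1 - η)` elements is such
that all but `O (X / (|A| log X))` of the integers `N ∈ [-2 X, 2 X]` have, for a positive
proportion of the primes `p ∈ A`, a difference `N - p ≠ 0` which is, up to an `X ^ ε`-smooth factor,
a product of at most two primes, each larger than `X ^ (1 / 7)`.

The theorem is a final theorem of the project `SG` of the starting library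
(`Pool.Agent.W23.SG.sparse_sets`), which none of the starting hand-ins states.
-/

namespace Pool.Agent.Results.MP_7b7e48_nt.SparseSetsOfPrimes

open Finset

open Classical in
/-- **Sparse sets of primes and almost primes.** For every `ε > 0` there are `c, η > 0` and `C` such
that for every `X ≥ 2` and every set `A` of primes up to `X` with at least `X ^ (1 - η)` elements,
all but at most `C X / (|A| log X)` of the integers `N` in `[-2 X, 2 X]` have the following
property: for at least `c |A|` of the primes `p ∈ A` the number `|N - p|` is nonzero and is a product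
`m s`, where all prime factors of `m` are smaller than `X ^ ε` and `s` is a product of at most two
primes, each larger than `X ^ (1 / 7)`. -/
theorem result (ε : ℝ) (hε : 0 < ε) :
    ∃ c C η : ℝ, 0 < c ∧ 0 < η ∧ ∀ X : ℕ, 2 ≤ X → ∀ A : Finset ℕ,
      (∀ p ∈ A, p.Prime ∧ p ≤ X) → (X : ℝ) ^ (1 - η) ≤ A.card →
      (((Icc (-(2 * X : ℤ)) (2 * X)).filter (fun N : ℤ => ((A.filter (fun p : ℕ =>
        (p : ℤ) ≠ N ∧ ∃ m s : ℕ, (N - p).natAbs = m * s ∧
          (∀ l : ℕ, l.Prime → l ∣ m → (l : ℝ) < (X : ℝ) ^ ε) ∧
          s.primeFactorsList.length ≤ 2 ∧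
          ∀ q ∈ s.primeFactors, (X : ℝ) ^ (1 / 7 : ℝ) < q)).card : ℝ) < c * A.card)).card : ℝ) ≤
        C * (X / (A.card * Real.log X)) :=
  Pool.Agent.W23.SG.sparse_sets ε hε

end Pool.Agent.Results.MP_7b7e48_nt.SparseSetsOfPrimes
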